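import Pool.Agent.Helper61.QS.GoalsH

/-!
# Project QS (MP_0ebdb3_gt), packet QS-OD2: linear ODEs with skew coefficients
-/

set_option autoImplicit false

open Set

namespace Pool.Agent.Helper59.QS

open Pool.Agent.Helper61.QS

theorem goalOD2 : G_OD2 := by
  intro n c U hc hU0 hU
  have key : ∀ Y : ℝ → En n, (∀ t, HasDerivAt Y (c t * Y t) t) →
      ∀ t, star (U t) * Y t = Y 0 := by
    intro Y hY t
    have hd : ∀ s, HasDerivAt (fun x => star (U x) * Y x) 0 s := by
      intro s
      have h1 : HasDerivAt (fun x => star (U x)) (star (c s * U s)) s := (hU s).star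
      have h2 := h1.mul (hY s)
      have e : star (c s * U s) * Y s + star (U s) * (c s * Y s) = 0 := by
        rw [star_mul, hc s]
        noncomm_ring
      rw [e] at h2
      exact h2
    have hconst := is_const_of_deriv_eq_zero (f := fun x => star (U x) * Y x)
      (fun s => (hd s).differentiableAt) (fun s => (hd s).deriv) t 0
    rw [hconst, hU0, star_one, one_mul]
  have h1 : ∀ t, star (U t) * U t = 1 := by
    intro t
    rw [key U hU t, hU0]
  have h2 : ∀ t, U t * star (U t) = 1 := by
    intro t
    have h := h1 t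
    have hl : ((star (U t) : En n) : V n →ₗ[ℝ] V n) * ((U t : En n) : V n →ₗ[ℝ] V n) = 1 := by
      have := congrArg (fun A : En n => (A : V n →ₗ[ℝ] V n)) h
      simpa using this
    have hr := mul_eq_one_comm.mp hl
    apply ContinuousLinearMap.coe_injective
    exact hr
  refine ⟨fun t => Unitary.mem_iff.mpr ⟨h1 t, h2 t⟩, ?_⟩
  intro Y hY t
  rw [← key Y hY t, ← mul_assoc, h2 t, one_mul]

end Pool.Agent.Helper59.QS
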